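import Pool.Agent.H406.IRR.Sub

/-!
# One-dimensional constituents of the Galois representations attached to cuspidal representations

Let `π` be an algebraic cuspidal automorphic representation of `GL_n` over `ℚ`, `n ≥ 2`, whose Hecke
polynomials have coefficients in a number field, and let `ρ` be any continuous representation of
`Gal(ℚbar/ℚ)` over the algebraic closure of `ℚ_ℓ` attached to `π`.  We show:

* `n = 2`: `ρ` is irreducible;
* `n = 3`: `ρ` is irreducible, or `π` is self-dual up to a twist: its unitary Satake parameters are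
  `e, e u, e / u` with a character `e` of finite order, the same for all `p`;
* `n ≥ 4`: in every chain of subrepresentations of `ρ` at most `n - 4` of the quotients are
  one-dimensional.  In particular for `n = 4` there are no subrepresentations of dimension `1` or `3`.

The same holds for weak constituents, that is, for families of characters `χ_1, …, χ_g` such that
all the characteristic polynomials of `ρ` are divisible by the product of the `X - χ_i`.

Nothing is assumed on regularity, self-duality, purity, or on `ρ` at `ℓ`; `ρ` need not be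
semisimple, `ℓ` is arbitrary.  The assumptions on the numbers `α p` (the Satake parameters of the
unitary twist of `π`) are stated in the structure `Cuspidal`; they are theorems on cuspidal
representations of Jacquet, Piatetski-Shapiro, Shalika and Shahidi.

Idea of the proof.  By the `ℓ`-adic six exponentials theorem (in the library `Pool.Agent.Y115`) a
weak character `χ` is, up to finite order, a rational power of the cyclotomic character.  If it was
not an integral power, then, for the primes `p` which are unramified in the number field, all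
`η χ(Frob_p)`, `η ^ N = 1`, would be conjugate eigenvalues; by Chebotarev's theorem and continuity
this would hold for all elements, in particular for `1`.  So `χ` is a power of the cyclotomic
character times a character `c` of finite order, and the bound of Jacquet and Shalika shows that `c`
has weight zero.  Now let `A` be the Satake parameters, `C` the sum of the characters and `B` the
rest.  If `B` has dimension `3`, then `∧² B = det(B) B^∨`, hence
`∧² A = A C - Sym² C + det(B) (A^∨ - C^∨)`, and after the twist by `c_1 ^ (-2)` all `L`-functions on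
the right are known at `s = 1`: the `L`-function of the left hand side would vanish at `s = 1`,
contrary to a theorem of Shahidi.  Similarly for `n = 2` and `n = 3` with the functions
`L(s, π × π~)` and `L(s, π × π × e)`.  The orders at `s = 1` of the series of the characters of
finite order are proved here, from Chebotarev's theorem.
-/

set_option autoImplicit false

namespace Pool.Agent.Results.MP_fa5bba_nt.AbelianConstituents

open NumberField Polynomial Matrix Filter Topology ComplexConjugate Pool.Agent.H406.IRR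

/-- `Q` is a prime ideal above the prime number `p` of the ring of all algebraic integers. -/
def PrimeOver (p : ℕ) (Q : Ideal (𝓞 (AlgebraicClosure ℚ))) : Prop :=
  Q.IsPrime ∧ (p : 𝓞 (AlgebraicClosure ℚ)) ∈ Q

/-- `g` is in the inertia group at `Q`. -/
def IsInertia (Q : Ideal (𝓞 (AlgebraicClosure ℚ))) (g : Gal(AlgebraicClosure ℚ/ℚ)) : Prop :=
  ∀ x : 𝓞 (AlgebraicClosure ℚ), g • x - x ∈ Q

/-- `g` is an (arithmetic) Frobenius element at the prime ideal `Q` above `p`. -/
def IsFrobenius (p : ℕ) (Q : Ideal (𝓞 (AlgebraicClosure ℚ))) (g : Gal(AlgebraicClosure ℚ/ℚ)) :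
    Prop := ∀ x : 𝓞 (AlgebraicClosure ℚ), g • x - x ^ p ∈ Q

section galois
variable {ℓ : ℕ} [Fact ℓ.Prime] {n : ℕ}

/-- The matrix of `g`. -/
noncomputable def mat (ρ : Gal(AlgebraicClosure ℚ/ℚ) →* GL (Fin n) (PadicAlgCl ℓ))
    (g : Gal(AlgebraicClosure ℚ/ℚ)) : Matrix (Fin n) (Fin n) (PadicAlgCl ℓ) :=
  (ρ g : GL (Fin n) (PadicAlgCl ℓ))

/-- The representation `ρ` is unramified at `p`, and the eigenvalues (with multiplicities) of every
geometric Frobenius element at `p` correspond under `ι` to the complex numbers in `A`. -/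
structure AttachedAt (ρ : Gal(AlgebraicClosure ℚ/ℚ) →* GL (Fin n) (PadicAlgCl ℓ))
    (ι : PadicAlgCl ℓ →+* ℂ) (p : ℕ) (A : Multiset ℂ) : Prop where
  unramified : ∀ Q, PrimeOver p Q → ∀ g, IsInertia Q g → ρ g = 1
  frobenius : ∀ Q, PrimeOver p Q → ∀ g, IsFrobenius p Q g → ((mat ρ g⁻¹).charpoly.map ι).roots = A

/-- `U` is a subrepresentation of `ρ`. -/
def Stable (ρ : Gal(AlgebraicClosure ℚ/ℚ) →* GL (Fin n) (PadicAlgCl ℓ))
    (U : Submodule (PadicAlgCl ℓ) (Fin n → PadicAlgCl ℓ)) : Prop := ∀ g, ∀ x ∈ U, mat ρ g *ᵥ x ∈ U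

/-- `ρ` is irreducible. -/
def Irreducible (ρ : Gal(AlgebraicClosure ℚ/ℚ) →* GL (Fin n) (PadicAlgCl ℓ)) : Prop :=
  0 < n ∧ ∀ U, Stable ρ U → U = ⊥ ∨ U = ⊤

/-- the number of one-dimensional quotients `V (i + 1) / V i`, `i < c` -/
noncomputable def oneDim (c : ℕ) (V : ℕ → Submodule (PadicAlgCl ℓ) (Fin n → PadicAlgCl ℓ)) : ℕ :=
  ((Finset.range c).filter fun i => Module.finrank (PadicAlgCl ℓ) (V (i + 1)) =
    Module.finrank (PadicAlgCl ℓ) (V i) + 1).card

end galois

/-- The function `e` on the prime numbers outside of `S` is given by a character of finite order of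
the Galois group of `ℚ`, unramified outside of `S`, on geometric Frobenius elements: a Dirichlet
character with conductor composed of primes in `S`. -/
def IsCharacter (S : Set ℕ) (e : ℕ → ℂ) : Prop :=
  ∃ ε : Gal(AlgebraicClosure ℚ/ℚ) →* ℂˣ, IsOpen (ε.ker : Set Gal(AlgebraicClosure ℚ/ℚ)) ∧
    ∀ p : ℕ, p.Prime → p ∉ S → ∀ Q, PrimeOver p Q → ∀ g, IsFrobenius p Q g → (ε g⁻¹ : ℂ) = e p

/-- The function `exp (∑_{p ∉ S, m ≥ 1} f(p, m) / (m p ^ (m s)))` has order `r` at `s = 1` (on the
real axis), the series being absolutely convergent for real `s > 1`. -/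
def HasOrder (S : Set ℕ) (f : ℕ → ℕ → ℂ) (r : ℤ) : Prop :=
  (∀ σ : ℝ, 1 < σ → Summable (term (S := S) f (σ : ℂ))) ∧ ∃ c : ℂ, c ≠ 0 ∧
    Tendsto (fun σ : ℝ => ((σ - 1 : ℝ) : ℂ) ^ (-r) * Complex.exp (∑' x, term (S := S) f (σ : ℂ) x))
      (𝓝[>] 1) (𝓝 c)

/-- The properties which are used of the Satake parameters `α p` of a unitary cuspidal automorphic
representation `π` of `GL_n` over `ℚ`, unramified outside of the finite set `S`, `n ≥ 2`: `π_p` is
unitary, the bound of Jacquet and Shalika, the simple pole of `L(s, π × π~)` at `s = 1`,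
`L(1, π × e) ≠ 0, ∞`, `L(s, π × π × e)` has at most a simple pole at `s = 1` (all these with the
absolute convergence of the Euler products for `s > 1`), and, for `n ≥ 4`, the exterior square
`L`-function of `π`, twisted by `e`, is meromorphic and not zero at `s = 1`; for all `e`. -/
structure Cuspidal (S : Set ℕ) (n : ℕ) (α : ℕ → Multiset ℂ) : Prop where
  card : ∀ p : ℕ, p.Prime → p ∉ S → Multiset.card (α p) = n
  ne_zero : ∀ p : ℕ, p.Prime → p ∉ S → (0 : ℂ) ∉ α p
  unitary : ∀ p : ℕ, p.Prime → p ∉ S → (α p).map (fun z => (conj z)⁻¹) = α p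
  bound : ∀ p : ℕ, p.Prime → p ∉ S → ∀ z ∈ α p, ‖z‖ < Real.sqrt p
  rankinSelberg : HasOrder S (fun p m => ((‖ps (α p) m‖ ^ 2 : ℝ) : ℂ)) (-1)
  standard : ∀ e, IsCharacter S e → HasOrder S (fun p m => ps (α p) m * e p ^ m) 0
  square : ∀ e, IsCharacter S e → ∃ r : ℤ, -1 ≤ r ∧
    HasOrder S (fun p m => ps (α p) m ^ 2 * e p ^ m) r
  exterior : 4 ≤ n → ∀ e, IsCharacter S e → ∃ Λ : ℂ → ℂ, MeromorphicOn Λ Set.univ ∧
    (∀ s : ℂ, 2 < s.re → Λ s = Complex.exp (∑' x,
      term (S := S) (fun p m => (ps (α p) m ^ 2 - ps (α p) (2 * m)) / 2 * e p ^ m) s x)) ∧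
    meromorphicOrderAt Λ 1 ≤ 0

/-- For `n = 3`: the twist of `π` by the inverse of a character `e` of finite order is self-dual
with trivial central character; more precisely `α p = {e, e u, e / u}`. -/
def SelfDualUpToTwist (S : Set ℕ) (α : ℕ → Multiset ℂ) : Prop :=
  ∃ e : ℕ → ℂ, IsCharacter S e ∧ ∀ p : ℕ, p.Prime → p ∉ S →
    ∃ u : ℂ, u ≠ 0 ∧ α p = {e p, e p * u, e p * u⁻¹}

/-- the complex number `p ^ (w / 2)` -/
noncomputable def halfPow (w : ℤ) (p : ℕ) : ℂ := (((p : ℝ) ^ ((w : ℝ) / 2) : ℝ) : ℂ)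

/-- **One-dimensional constituents.** -/
theorem result (ℓ : ℕ) [Fact ℓ.Prime] {n : ℕ} (hn : 2 ≤ n)
    -- the Satake parameters of the unitary twist of `π`, and its weight
    (S : Set ℕ) (hS : S.Finite) (hℓ : ℓ ∈ S) (α : ℕ → Multiset ℂ) (hα : Cuspidal S n α) (w : ℤ)
    -- the Hecke polynomials have coefficients in the number field `E`
    (E : IntermediateField ℚ ℂ) [FiniteDimensional ℚ E]
    (hE : ∀ p : ℕ, p.Prime → p ∉ S → ∃ H : E[X],
      H.map (algebraMap E ℂ) = ((α p).map fun z => X - C (z * halfPow w p)).prod)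
    -- the representation
    (ι : PadicAlgCl ℓ →+* ℂ) (ρ : Gal(AlgebraicClosure ℚ/ℚ) →* GL (Fin n) (PadicAlgCl ℓ))
    (hρ : Continuous ρ)
    (hatt : ∀ p : ℕ, p.Prime → p ∉ S → AttachedAt ρ ι p ((α p).map fun z => z * halfPow w p)) :
    (n = 2 → Irreducible ρ) ∧
    (n = 3 → Irreducible ρ ∨ SelfDualUpToTwist S α) ∧
    (4 ≤ n → ∀ (c : ℕ) (V : ℕ → Submodule (PadicAlgCl ℓ) (Fin n → PadicAlgCl ℓ)),
      (∀ i ≤ c, Stable ρ (V i)) → (∀ i < c, V i ≤ V (i + 1)) → oneDim c V + 4 ≤ n) ∧
    ∀ (g : ℕ) (χ : Fin g → Gal(AlgebraicClosure ℚ/ℚ) →* (PadicAlgCl ℓ)ˣ), 1 ≤ g →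
      (∀ i, Continuous (χ i)) →
      (∀ σ, (∏ i, (X - C (χ i σ : PadicAlgCl ℓ))) ∣ (mat ρ σ).charpoly) →
      g + 4 ≤ n ∨ (n = 3 ∧ g = 1 ∧ SelfDualUpToTwist S α) := by
  have hart : ∀ e, IsArt S e → IsCharacter S e := by
    rintro e ⟨ε, h1, h2⟩
    exact ⟨ε, h1, fun p hp hpS Q hQ g hg => h2 p hp hpS Q hQ.1 hQ.2 g hg⟩
  have hsat : Sat S n α := ⟨hα.card, hα.ne_zero, hα.unitary, hα.bound⟩
  have hord : ∀ {f : ℕ → ℕ → ℂ} {r : ℤ}, HasOrder S f r → Ord S f r := by
    rintro f r ⟨h1, c, hc, h2⟩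
    exact ord_of_tendsto h1 hc h2
  have hL : LF S α := by
    refine ⟨hord hα.rankinSelberg, fun e he => hord (hα.standard e (hart e he)), fun e he => ?_⟩
    obtain ⟨r, hr, h⟩ := hα.square e (hart e he)
    exact ⟨r, hr, hord h⟩
  have hX : 4 ≤ n → EF S α := fun h4 e he => hα.exterior h4 e (hart e he)
  have hattach : Att ρ ι S α w :=
    ⟨fun p hp hpS Q hQ hpQ g hg => (hatt p hp hpS).unramified Q ⟨hQ, hpQ⟩ g hg,
      fun p hp hpS Q hQ hpQ g hg => (hatt p hp hpS).frobenius Q ⟨hQ, hpQ⟩ g hg⟩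
  have hshape : Shape S α → SelfDualUpToTwist S α := fun ⟨e, he, h⟩ => ⟨e, hart e he, h⟩
  have hmain : ∀ (g : ℕ) (χ : Fin g → Gal(AlgebraicClosure ℚ/ℚ) →* (PadicAlgCl ℓ)ˣ), 1 ≤ g →
      WeakFam ρ g χ → g + 4 ≤ n ∨ (n = 3 ∧ g = 1 ∧ SelfDualUpToTwist S α) := by
    intro g χ hg hχ
    rcases main hn hρ hS hℓ hsat hattach hE hL hX hg hχ with h | ⟨h1, h2, h3⟩
    · exact Or.inl h
    · exact Or.inr ⟨h1, h2, hshape h3⟩
  have hchain : ∀ (c : ℕ) (V : ℕ → Submodule (PadicAlgCl ℓ) (Fin n → PadicAlgCl ℓ)),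
      (∀ i ≤ c, Stable ρ (V i)) → (∀ i < c, V i ≤ V (i + 1)) → 1 ≤ oneDim c V →
      oneDim c V + 4 ≤ n ∨ (n = 3 ∧ oneDim c V = 1 ∧ SelfDualUpToTwist S α) := by
    intro c V hV hle h1
    obtain ⟨χ, hχ⟩ := chain_family hρ c V (fun i hi g x hx => hV i hi g x hx) hle
    exact hmain _ χ h1 hχ
  -- a proper stable subspace for `n ≤ 3`
  have hprop : n ≤ 3 → ∀ U : Submodule (PadicAlgCl ℓ) (Fin n → PadicAlgCl ℓ), Stable ρ U →
      U ≠ ⊥ → U ≠ ⊤ → n = 3 ∧ SelfDualUpToTwist S α := by
    intro hn3 U hU hbot htop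
    have hst : ∀ i ≤ 2, Stable ρ ((fun i : ℕ => if i = 0 then ⊥ else if i = 1 then U else ⊤) i) := by
      intro i hi g x hx
      rcases i with _ | _ | i
      · simp only [if_true, Submodule.mem_bot] at hx ⊢
        rw [hx, mulVec_zero]
      · exact hU g x hx
      · exact Submodule.mem_top
    have hle : ∀ i < 2, (fun i : ℕ => if i = 0 then ⊥ else if i = 1 then U else ⊤) i ≤
        (fun i : ℕ => if i = 0 then ⊥ else if i = 1 then U else ⊤) (i + 1) := by
      intro i hi
      rcases i with _ | _ | i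
      · exact bot_le
      · exact le_top
      · omega
    have h1 : 0 < Module.finrank (PadicAlgCl ℓ) U := by
      rcases Nat.eq_zero_or_pos (Module.finrank (PadicAlgCl ℓ) U) with h | h
      · exact absurd ((Submodule.finrank_eq_zero (R := PadicAlgCl ℓ)).1 h) hbot
      · exact h
    have h2 : Module.finrank (PadicAlgCl ℓ) U < n := by
      have h3 := Submodule.finrank_lt htop
      rwa [Module.finrank_fin_fun] at h3
    have hcount : 1 ≤ oneDim 2 (fun i : ℕ => if i = 0 then ⊥ else if i = 1 then U else ⊤) := by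
      unfold oneDim
      rw [Nat.one_le_iff_ne_zero, Finset.card_ne_zero]
      by_cases h3 : Module.finrank (PadicAlgCl ℓ) U = 1
      · refine ⟨0, Finset.mem_filter.2 ⟨by simp, ?_⟩⟩
        simp [h3]
      · refine ⟨1, Finset.mem_filter.2 ⟨by simp, ?_⟩⟩
        have h4 : Module.finrank (PadicAlgCl ℓ) (⊤ : Submodule (PadicAlgCl ℓ) (Fin n → PadicAlgCl ℓ)) =
            n := by rw [finrank_top, Module.finrank_fin_fun]
        show Module.finrank (PadicAlgCl ℓ)
          (⊤ : Submodule (PadicAlgCl ℓ) (Fin n → PadicAlgCl ℓ)) = Module.finrank (PadicAlgCl ℓ) U + 1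
        omega
    rcases hchain 2 _ hst hle hcount with h | ⟨h, -, h'⟩
    · omega
    · exact ⟨h, h'⟩
  refine ⟨fun h2 => ⟨by omega, fun U hU => ?_⟩, fun h3 => ?_, fun h4 c V hV hle => ?_,
    fun g χ hg h1 h2 => hmain g χ hg ⟨h1, h2⟩⟩
  · by_contra hcon
    push Not at hcon
    have := (hprop (by omega) U hU hcon.1 hcon.2).1
    omega
  · by_cases h : ∃ U, Stable ρ U ∧ U ≠ ⊥ ∧ U ≠ ⊤
    · obtain ⟨U, hU, hbot, htop⟩ := h
      exact Or.inr (hprop (by omega) U hU hbot htop).2
    · push Not at h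
      refine Or.inl ⟨by omega, fun U hU => ?_⟩
      by_cases hbot : U = ⊥
      · exact Or.inl hbot
      · exact Or.inr (h U hU hbot)
  · rcases Nat.eq_zero_or_pos (oneDim c V) with h | h
    · omega
    · rcases hchain c V hV hle h with h' | ⟨h', -⟩
      · exact h'
      · omega

end Pool.Agent.Results.MP_fa5bba_nt.AbelianConstituents
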