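import Pool.Agent.H406.IRR3.End
import Pool.Agent.H406.IRR3.Wt

/-!
# Galois representations of cusp forms on `GL_4` have no constituent attached to a cusp form on `GL_2`

Let `π` and `τ` be algebraic cuspidal automorphic representations of `GL_4` and `GL_2` over `ℚ`, whose
Hecke polynomials have coefficients in a number field, and let `ρ` and `ρ_τ` be any continuous
representations of `Gal(ℚbar/ℚ)` over the algebraic closure of `ℚ_ℓ` which are attached to `π` and `τ`.
We show that `ρ_τ` is not a constituent of `ρ`: there is no two-dimensional continuous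
representation `σ` such that the semisimplifications of `ρ` and of `ρ_τ ⊕ σ` are isomorphic.

Nothing is assumed on `σ` (no modularity, no condition at `ℓ`), and nothing on `π` and `τ` except
algebraicity: no regularity, no polarization, no purity; `ℓ` is arbitrary.  If `σ` were automorphic
too this would be strong multiplicity one for isobaric representations.

The properties of the Satake parameters of `π` and `τ` which are used are stated in the structure
`CuspidalPair`. They are theorems of Jacquet, Piatetski-Shapiro, Shalika, Shahidi, Gelbart and Jacquet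
(adjoint square), Kim and Shahidi (symmetric cube of `GL_2`), and Kim (exterior square of `GL_4`).

Idea of the proof.  `det ρ_τ` and `det σ` are products of two eigenvalues of `ρ`.  By the `ℓ`-adic six
exponentials theorem, by an argument with conjugates of radicals, Chebotarev's theorem and the bound of
Jacquet and Shalika, they are the same power of the cyclotomic character times characters `ω` and `b` of
finite order.  So `σ` is dual to its twist by `b⁻¹` and `L(s, σ × τ~)` has a simple zero at `s = 1`.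
From `∧² π = ω + τ ⊗ σ + b` and `L(1, ∧² π × Ad τ) ≠ 0` one gets: if `τ` is not dihedral then `ω = b`, and
`L(s, π × Sym³ τ~ ⊗ ω)` has a pole at `s = 1`; if `τ` is dihedral one gets a contradiction.  So
`π = Sym³ τ ⊗ ω⁻¹`, and by Chebotarev's theorem `tr σ = (tr ρ_τ)³ / ω - 3 tr ρ_τ`.  A two-dimensional
representation `T` such that `(tr T)³ / det T - 3 tr T` is the trace of a two-dimensional representation
of the same determinant is reducible, or has trace zero outside of a subgroup of index two (this is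
proved with commutators); the former is impossible for `ρ_τ`, and in the latter case `τ` is dihedral.
-/

set_option autoImplicit false

namespace Pool.Agent.Results.MP_fa5bba_nt.NoModularConstituent

open NumberField Polynomial Matrix Filter Topology ComplexConjugate Pool.Agent.H406.IRR
open Pool.Agent.H406.IRR3

/-- `Q` is a prime ideal above the prime number `p` of the ring of all algebraic integers. -/
def PrimeOver (p : ℕ) (Q : Ideal (𝓞 (AlgebraicClosure ℚ))) : Prop :=
  Q.IsPrime ∧ (p : 𝓞 (AlgebraicClosure ℚ)) ∈ Q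

/-- `g` is in the inertia group at `Q`. -/
def IsInertia (Q : Ideal (𝓞 (AlgebraicClosure ℚ))) (g : Gal(AlgebraicClosure ℚ/ℚ)) : Prop :=
  ∀ x : 𝓞 (AlgebraicClosure ℚ), g • x - x ∈ Q

/-- `g` is an (arithmetic) Frobenius element at the prime ideal `Q` above `p`. -/
def IsFrobenius (p : ℕ) (Q : Ideal (𝓞 (AlgebraicClosure ℚ))) (g : Gal(AlgebraicClosure ℚ/ℚ)) :
    Prop := ∀ x : 𝓞 (AlgebraicClosure ℚ), g • x - x ^ p ∈ Q

section galois
variable {ℓ : ℕ} [Fact ℓ.Prime] {n : ℕ}

/-- The matrix of `g`. -/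
noncomputable def mat (ρ : Gal(AlgebraicClosure ℚ/ℚ) →* GL (Fin n) (PadicAlgCl ℓ))
    (g : Gal(AlgebraicClosure ℚ/ℚ)) : Matrix (Fin n) (Fin n) (PadicAlgCl ℓ) :=
  (ρ g : GL (Fin n) (PadicAlgCl ℓ))

/-- The representation `ρ` is unramified at `p`, and the eigenvalues (with multiplicities) of every
geometric Frobenius element at `p` correspond under `ι` to the complex numbers in `A`. -/
structure AttachedAt (ρ : Gal(AlgebraicClosure ℚ/ℚ) →* GL (Fin n) (PadicAlgCl ℓ))
    (ι : PadicAlgCl ℓ →+* ℂ) (p : ℕ) (A : Multiset ℂ) : Prop where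
  unramified : ∀ Q, PrimeOver p Q → ∀ g, IsInertia Q g → ρ g = 1
  frobenius : ∀ Q, PrimeOver p Q → ∀ g, IsFrobenius p Q g → ((mat ρ g⁻¹).charpoly.map ι).roots = A

end galois

/-- The function `e` on the prime numbers outside of `S` is given by a character of finite order of
the Galois group of `ℚ`, unramified outside of `S`, on geometric Frobenius elements: a Dirichlet
character with conductor composed of primes in `S`. -/
def IsCharacter (S : Set ℕ) (e : ℕ → ℂ) : Prop :=
  ∃ ε : Gal(AlgebraicClosure ℚ/ℚ) →* ℂˣ, IsOpen (ε.ker : Set Gal(AlgebraicClosure ℚ/ℚ)) ∧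
    ∀ p : ℕ, p.Prime → p ∉ S → ∀ Q, PrimeOver p Q → ∀ g, IsFrobenius p Q g → (ε g⁻¹ : ℂ) = e p

/-- The function `exp (∑_{p ∉ S, m ≥ 1} f(p, m) / (m p ^ (m s)))` has order `r` at `s = 1` (on the
real axis), the series being absolutely convergent for real `s > 1`. -/
def HasOrder (S : Set ℕ) (f : ℕ → ℕ → ℂ) (r : ℤ) : Prop :=
  (∀ σ : ℝ, 1 < σ → Summable (term (S := S) f (σ : ℂ))) ∧ ∃ c : ℂ, c ≠ 0 ∧
    Tendsto (fun σ : ℝ => ((σ - 1 : ℝ) : ℂ) ^ (-r) * Complex.exp (∑' x, term (S := S) f (σ : ℂ) x))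
      (𝓝[>] 1) (𝓝 c)

/-- The parameters of `Sym³ τ ⊗ ω⁻¹`, where `ω` is the central character of `τ`: if `A = {s, t}` then
`symCube A = {s, t, s² / t, t² / s}`. -/
noncomputable def symCube (A : Multiset ℂ) : Multiset ℂ := A + A.map fun z => z ^ 3 / A.prod

/-- The Satake parameters of a unitary cuspidal automorphic representation of `GL_n`, unramified
outside of `S`: `n` nonzero numbers, stable under `z ↦ 1 / conj z`, of absolute value less than
`√p` (Jacquet and Shalika). -/
structure Satake (S : Set ℕ) (n : ℕ) (α : ℕ → Multiset ℂ) : Prop where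
  card : ∀ p : ℕ, p.Prime → p ∉ S → Multiset.card (α p) = n
  ne_zero : ∀ p : ℕ, p.Prime → p ∉ S → (0 : ℂ) ∉ α p
  unitary : ∀ p : ℕ, p.Prime → p ∉ S → (α p).map (fun z => (conj z)⁻¹) = α p
  bound : ∀ p : ℕ, p.Prime → p ∉ S → ∀ z ∈ α p, ‖z‖ < Real.sqrt p

/-- The properties which are used of the Satake parameters `α p` and `β p` of unitary cuspidal
automorphic representations `π` and `τ` of `GL_4` and `GL_2` over `ℚ`, unramified outside of the
finite set `S`.  All `L`-functions are without the factors at `S`, and `e` is a character of finite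
order unramified outside of `S`. -/
structure CuspidalPair (S : Set ℕ) (α β : ℕ → Multiset ℂ) : Prop where
  π : Satake S 4 α
  τ : Satake S 2 β
  /-- `L(s, τ × τ~)` has a simple pole -/
  rankinSelberg : HasOrder S (fun p m => ((‖ps (β p) m‖ ^ 2 : ℝ) : ℂ)) (-1)
  /-- `L(1, τ × e) ≠ 0, ∞` -/
  standard : ∀ e, IsCharacter S e → HasOrder S (fun p m => ps (β p) m * e p ^ m) 0
  /-- `L(s, τ × τ × e)` has at most a simple pole -/
  square : ∀ e, IsCharacter S e → ∃ r : ℤ, -1 ≤ r ∧
    HasOrder S (fun p m => ps (β p) m ^ 2 * e p ^ m) r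
  /-- `L(1, π × τ~ × e) ≠ 0, ∞` -/
  mixed : ∀ e, IsCharacter S e →
    HasOrder S (fun p m => ps (α p) m * conj (ps (β p) m) * e p ^ m) 0
  /-- `L(s, ∧² π × Ad τ × e)` is not zero at `s = 1` -/
  exterior : ∀ e, IsCharacter S e → ∃ r : ℤ, r ≤ 0 ∧
    HasOrder S (fun p m => (ps (α p) m ^ 2 - ps (α p) (2 * m)) / 2 *
      ((‖ps (β p) m‖ ^ 2 - 1 : ℝ) : ℂ) * e p ^ m) r
  /-- `L(s, π × (Sym³ τ ⊗ ω⁻¹)~)` has at most a simple pole; if it has one then `π = Sym³ τ ⊗ ω⁻¹` -/
  cube : ∃ r : ℤ, -1 ≤ r ∧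
    HasOrder S (fun p m => ps (α p) m * conj (ps (symCube (β p)) m)) r ∧
    (r = -1 → ∀ p : ℕ, p.Prime → p ∉ S → α p = symCube (β p))
  /-- `L(s, Ad τ × Ad τ)` has a pole -/
  adjoint : ∃ r : ℤ, r ≤ -1 ∧ HasOrder S (fun p m => (((‖ps (β p) m‖ ^ 2 - 1) ^ 2 : ℝ) : ℂ)) r
  /-- `L(s, τ × τ~ × e)` has an order at `s = 1`. If it has a simple pole and `e` is not trivial (then
  `τ` is dihedral), then `Ad τ` and `Sym³ τ` are isobaric sums of representations of `GL_1` and `GL_2`:
  `L(s, Ad τ × Ad τ)` has at least a double pole, and `L(1, π × (Sym³ τ ⊗ ω⁻¹)~) ≠ 0, ∞`. -/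
  dihedral : ∀ e, IsCharacter S e → (∃ p : ℕ, p.Prime ∧ p ∉ S ∧ e p ≠ 1) →
    ∃ r : ℤ, HasOrder S (fun p m => ((‖ps (β p) m‖ ^ 2 : ℝ) : ℂ) * e p ^ m) r ∧ (r = -1 →
      HasOrder S (fun p m => ps (α p) m * conj (ps (symCube (β p)) m)) 0 ∧
      ∃ r' : ℤ, r' ≤ -2 ∧ HasOrder S (fun p m => (((‖ps (β p) m‖ ^ 2 - 1) ^ 2 : ℝ) : ℂ)) r')

/-- the complex number `p ^ (w / 2)` -/
noncomputable def halfPow (w : ℤ) (p : ℕ) : ℂ := (((p : ℝ) ^ ((w : ℝ) / 2) : ℝ) : ℂ)

/-- **No constituent of `ρ` is attached to a cusp form on `GL_2`.** -/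
theorem result (ℓ : ℕ) [Fact ℓ.Prime]
    -- the Satake parameters of the unitary twists of `π` and `τ`, and their weights
    (S : Set ℕ) (hS : S.Finite) (hℓ : ℓ ∈ S) (α β : ℕ → Multiset ℂ) (hαβ : CuspidalPair S α β)
    (w w' : ℤ)
    -- the Hecke polynomials have coefficients in the number field `E`
    (E : IntermediateField ℚ ℂ) [FiniteDimensional ℚ E]
    (hE : ∀ p : ℕ, p.Prime → p ∉ S → ∃ H : E[X],
      H.map (algebraMap E ℂ) = ((α p).map fun z => X - C (z * halfPow w p)).prod)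
    (hE' : ∀ p : ℕ, p.Prime → p ∉ S → ∃ H : E[X],
      H.map (algebraMap E ℂ) = ((β p).map fun z => X - C (z * halfPow w' p)).prod)
    -- the representation attached to `π`
    (ι : PadicAlgCl ℓ →+* ℂ) (ρ : Gal(AlgebraicClosure ℚ/ℚ) →* GL (Fin 4) (PadicAlgCl ℓ))
    (hρ : Continuous ρ)
    (hatt : ∀ p : ℕ, p.Prime → p ∉ S → AttachedAt ρ ι p ((α p).map fun z => z * halfPow w p))
    -- the representation attached to `τ`
    (ρτ : Gal(AlgebraicClosure ℚ/ℚ) →* GL (Fin 2) (PadicAlgCl ℓ)) (hρτ : Continuous ρτ)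
    (hatt' : ∀ p : ℕ, p.Prime → p ∉ S → AttachedAt ρτ ι p ((β p).map fun z => z * halfPow w' p))
    -- any two-dimensional representation
    (σ : Gal(AlgebraicClosure ℚ/ℚ) →* GL (Fin 2) (PadicAlgCl ℓ)) (hσ : Continuous σ) :
    ¬ ∀ g, (mat ρ g).charpoly = (mat ρτ g).charpoly * (mat σ g).charpoly := by
  intro hcp
  have hart : ∀ e, IsArt S e → IsCharacter S e := by
    rintro e ⟨ε, h1, h2⟩
    exact ⟨ε, h1, fun p hp hpS Q hQ g hg => h2 p hp hpS Q hQ.1 hQ.2 g hg⟩
  have hord : ∀ {f : ℕ → ℕ → ℂ} {r : ℤ}, HasOrder S f r → Ord S f r := by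
    rintro f r ⟨h1, c, hc, h2⟩
    exact ord_of_tendsto h1 hc h2
  have hα : Sat S 4 α := ⟨hαβ.π.card, hαβ.π.ne_zero, hαβ.π.unitary, hαβ.π.bound⟩
  have hβ : Sat S 2 β := ⟨hαβ.τ.card, hαβ.τ.ne_zero, hαβ.τ.unitary, hαβ.τ.bound⟩
  have hattach : Att ρ ι S α w :=
    ⟨fun p hp hpS Q hQ hpQ g hg => (hatt p hp hpS).unramified Q ⟨hQ, hpQ⟩ g hg,
      fun p hp hpS Q hQ hpQ g hg => (hatt p hp hpS).frobenius Q ⟨hQ, hpQ⟩ g hg⟩
  have hattach' : Att ρτ ι S β w' :=
    ⟨fun p hp hpS Q hQ hpQ g hg => (hatt' p hp hpS).unramified Q ⟨hQ, hpQ⟩ g hg,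
      fun p hp hpS Q hQ hpQ g hg => (hatt' p hp hpS).frobenius Q ⟨hQ, hpQ⟩ g hg⟩
  obtain rfl : w' = w := weights hS hα hβ hattach hattach' hcp
  have hL : LF S β := by
    refine ⟨hord hαβ.rankinSelberg, fun e he => hord (hαβ.standard e (hart e he)), fun e he => ?_⟩
    obtain ⟨r, hr, h⟩ := hαβ.square e (hart e he)
    exact ⟨r, hr, hord h⟩
  refine plane_main hρ hρτ hσ hS hℓ hα hβ hattach hattach' hE hE' hcp hL
    (fun e he => hord (hαβ.mixed e (hart e he))) (fun e he => ?_) ?_ ?_ (fun e he hne h => ?_)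
  · obtain ⟨r, hr, h⟩ := hαβ.exterior e (hart e he)
    exact ⟨r, hr, hord h⟩
  · obtain ⟨r, hr, h, h'⟩ := hαβ.cube
    exact ⟨r, hr, hord h, h'⟩
  · obtain ⟨r, hr, h⟩ := hαβ.adjoint
    exact ⟨r, hr, hord h⟩
  · obtain ⟨r, h1, h2⟩ := hαβ.dihedral e (hart e he) hne
    obtain ⟨h3, r', hr', h4⟩ := h2 ((hord h1).unique h)
    exact ⟨hord h3, r', hr', hord h4⟩

end Pool.Agent.Results.MP_fa5bba_nt.NoModularConstituent
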