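import Pool.Agent.H406.IRR2.Chain

/-!
# Galois representations of cuspidal representations with self-dual constituents

Let `π` be an algebraic cuspidal automorphic representation of `GL_n` over `ℚ`, `n ≥ 2`, whose Hecke
polynomials have coefficients in a number field, and let `ρ` be any continuous representation of
`Gal(ℚbar/ℚ)` over the algebraic closure of `ℚ_ℓ` attached to `π`.  We show:

* if `π` is not self-dual up to a twist, then not all constituents of `ρ` are self-dual up to twists,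
  the twists being allowed to depend on the constituent.  In particular `ρ` has an irreducible
  constituent of dimension at least `3`;
* for `n ≤ 4`, `ρ` is irreducible or `π` is self-dual up to a twist.

The first result holds in a weak form: it is sufficient that the eigenvalues of each `ρ(g)` can be
divided into `c` nonempty parts, stable under `z ↦ η_i(g) / z`, for continuous characters
`η_1, …, η_c`.

Nothing is assumed on regularity, polarization, purity, or on `ρ` at `ℓ`; `ρ` need not be semisimple,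
`ℓ` is arbitrary.  The assumptions on the numbers `α p` (the Satake parameters of the unitary twist
of `π`) are stated in the structure `Cuspidal`; they are theorems on cuspidal representations of
Jacquet, Piatetski-Shapiro, Shalika and Shahidi.  The conclusion that `π` is self-dual up to a twist is
stated as: `L(s, π × π × e)` has a pole at `s = 1` for a character `e` of finite order.

Idea of the proof.  The `η_i` are products of two eigenvalues.  By the `ℓ`-adic six exponentials
theorem (in the library `Pool.Agent.Y115`), by an argument with conjugates of radicals, Chebotarev's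
theorem and the continuity of `det (x - ρ(g) ⊗ ρ(g))`, and by the bound of Jacquet and Shalika, each
`η_i` is the same power of the cyclotomic character times a character `e_i` of finite order.  For the
prime powers on which all the `e_i` coincide, the parameters of `π~` and of `π ⊗ e_1⁻¹` have the same
trace. So the product of the `L(s, π × π~ × χ)` over the characters `χ` generated by the quotients
`e_i / e_1` is equal to the product of the `L(s, π × π × e_1⁻¹ χ)`.  The former has a pole at `s = 1`.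
-/

set_option autoImplicit false

namespace Pool.Agent.Results.MP_fa5bba_nt.PolarizedConstituents

open NumberField Polynomial Matrix Filter Topology ComplexConjugate Pool.Agent.H406.IRR

/-- `Q` is a prime ideal above the prime number `p` of the ring of all algebraic integers. -/
def PrimeOver (p : ℕ) (Q : Ideal (𝓞 (AlgebraicClosure ℚ))) : Prop :=
  Q.IsPrime ∧ (p : 𝓞 (AlgebraicClosure ℚ)) ∈ Q

/-- `g` is in the inertia group at `Q`. -/
def IsInertia (Q : Ideal (𝓞 (AlgebraicClosure ℚ))) (g : Gal(AlgebraicClosure ℚ/ℚ)) : Prop :=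
  ∀ x : 𝓞 (AlgebraicClosure ℚ), g • x - x ∈ Q

/-- `g` is an (arithmetic) Frobenius element at the prime ideal `Q` above `p`. -/
def IsFrobenius (p : ℕ) (Q : Ideal (𝓞 (AlgebraicClosure ℚ))) (g : Gal(AlgebraicClosure ℚ/ℚ)) :
    Prop := ∀ x : 𝓞 (AlgebraicClosure ℚ), g • x - x ^ p ∈ Q

section galois
variable {ℓ : ℕ} [Fact ℓ.Prime] {n : ℕ}

/-- The matrix of `g`. -/
noncomputable def mat (ρ : Gal(AlgebraicClosure ℚ/ℚ) →* GL (Fin n) (PadicAlgCl ℓ))
    (g : Gal(AlgebraicClosure ℚ/ℚ)) : Matrix (Fin n) (Fin n) (PadicAlgCl ℓ) :=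
  (ρ g : GL (Fin n) (PadicAlgCl ℓ))

/-- The representation `ρ` is unramified at `p`, and the eigenvalues (with multiplicities) of every
geometric Frobenius element at `p` correspond under `ι` to the complex numbers in `A`. -/
structure AttachedAt (ρ : Gal(AlgebraicClosure ℚ/ℚ) →* GL (Fin n) (PadicAlgCl ℓ))
    (ι : PadicAlgCl ℓ →+* ℂ) (p : ℕ) (A : Multiset ℂ) : Prop where
  unramified : ∀ Q, PrimeOver p Q → ∀ g, IsInertia Q g → ρ g = 1
  frobenius : ∀ Q, PrimeOver p Q → ∀ g, IsFrobenius p Q g → ((mat ρ g⁻¹).charpoly.map ι).roots = A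

/-- `U` is a subrepresentation of `ρ`. -/
def Stable (ρ : Gal(AlgebraicClosure ℚ/ℚ) →* GL (Fin n) (PadicAlgCl ℓ))
    (U : Submodule (PadicAlgCl ℓ) (Fin n → PadicAlgCl ℓ)) : Prop := ∀ g, ∀ x ∈ U, mat ρ g *ᵥ x ∈ U

/-- `ρ` is irreducible. -/
def Irreducible (ρ : Gal(AlgebraicClosure ℚ/ℚ) →* GL (Fin n) (PadicAlgCl ℓ)) : Prop :=
  0 < n ∧ ∀ U, Stable ρ U → U = ⊥ ∨ U = ⊤

/-- For every `g` the multiset of the eigenvalues of `ρ(g)` is the sum of `c` nonempty multisets
`T i` which are stable under `z ↦ η i g / z`. -/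
def PolarizedParts (ρ : Gal(AlgebraicClosure ℚ/ℚ) →* GL (Fin n) (PadicAlgCl ℓ)) (c : ℕ)
    (η : Fin c → Gal(AlgebraicClosure ℚ/ℚ) →* (PadicAlgCl ℓ)ˣ) : Prop :=
  ∀ g, ∃ T : Fin c → Multiset (PadicAlgCl ℓ), (mat ρ g).charpoly.roots = ∑ i, T i ∧
    ∀ i, T i ≠ 0 ∧ (T i).map (fun z => (η i g : PadicAlgCl ℓ) / z) = T i

end galois

/-- The function `e` on the prime numbers outside of `S` is given by a character of finite order of
the Galois group of `ℚ`, unramified outside of `S`, on geometric Frobenius elements: a Dirichlet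
character with conductor composed of primes in `S`. -/
def IsCharacter (S : Set ℕ) (e : ℕ → ℂ) : Prop :=
  ∃ ε : Gal(AlgebraicClosure ℚ/ℚ) →* ℂˣ, IsOpen (ε.ker : Set Gal(AlgebraicClosure ℚ/ℚ)) ∧
    ∀ p : ℕ, p.Prime → p ∉ S → ∀ Q, PrimeOver p Q → ∀ g, IsFrobenius p Q g → (ε g⁻¹ : ℂ) = e p

/-- The function `exp (∑_{p ∉ S, m ≥ 1} f(p, m) / (m p ^ (m s)))` has order `r` at `s = 1` (on the
real axis), the series being absolutely convergent for real `s > 1`. -/
def HasOrder (S : Set ℕ) (f : ℕ → ℕ → ℂ) (r : ℤ) : Prop :=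
  (∀ σ : ℝ, 1 < σ → Summable (term (S := S) f (σ : ℂ))) ∧ ∃ c : ℂ, c ≠ 0 ∧
    Tendsto (fun σ : ℝ => ((σ - 1 : ℝ) : ℂ) ^ (-r) * Complex.exp (∑' x, term (S := S) f (σ : ℂ) x))
      (𝓝[>] 1) (𝓝 c)

/-- The properties which are used of the Satake parameters `α p` of a unitary cuspidal automorphic
representation `π` of `GL_n` over `ℚ`, unramified outside of the finite set `S`, `n ≥ 2`: `π_p` is
unitary, the bound of Jacquet and Shalika, the simple pole of `L(s, π × π~)` at `s = 1`,
`L(1, π × π~ × e) ≠ 0`, `L(s, π × π × e)` has at most a simple pole at `s = 1`, and, for the last part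
of the result and `n = 4`, `L(1, π × e) ≠ 0, ∞`, and the exterior square `L`-function of `π`, twisted
by `e`, is meromorphic and not zero at `s = 1` (with the absolute convergence of the Euler
products); for all `e`. -/
structure Cuspidal (S : Set ℕ) (n : ℕ) (α : ℕ → Multiset ℂ) : Prop where
  card : ∀ p : ℕ, p.Prime → p ∉ S → Multiset.card (α p) = n
  ne_zero : ∀ p : ℕ, p.Prime → p ∉ S → (0 : ℂ) ∉ α p
  unitary : ∀ p : ℕ, p.Prime → p ∉ S → (α p).map (fun z => (conj z)⁻¹) = α p
  bound : ∀ p : ℕ, p.Prime → p ∉ S → ∀ z ∈ α p, ‖z‖ < Real.sqrt p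
  rankinSelberg : HasOrder S (fun p m => ((‖ps (α p) m‖ ^ 2 : ℝ) : ℂ)) (-1)
  twisted : ∀ e, IsCharacter S e → ∃ r : ℤ, r ≤ 0 ∧
    HasOrder S (fun p m => ((‖ps (α p) m‖ ^ 2 : ℝ) : ℂ) * e p ^ m) r
  square : ∀ e, IsCharacter S e → ∃ r : ℤ, -1 ≤ r ∧
    HasOrder S (fun p m => ps (α p) m ^ 2 * e p ^ m) r
  standard : n = 4 → ∀ e, IsCharacter S e → HasOrder S (fun p m => ps (α p) m * e p ^ m) 0
  exterior : n = 4 → ∀ e, IsCharacter S e → ∃ Λ : ℂ → ℂ, MeromorphicOn Λ Set.univ ∧
    (∀ s : ℂ, 2 < s.re → Λ s = Complex.exp (∑' x,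
      term (S := S) (fun p m => (ps (α p) m ^ 2 - ps (α p) (2 * m)) / 2 * e p ^ m) s x)) ∧
    meromorphicOrderAt Λ 1 ≤ 0

/-- `π` is self-dual up to a twist: `L(s, π × π × e)` has a pole at `s = 1` for a character `e` of
finite order. -/
def EssentiallySelfDual (S : Set ℕ) (α : ℕ → Multiset ℂ) : Prop :=
  ∃ e : ℕ → ℂ, IsCharacter S e ∧ HasOrder S (fun p m => ps (α p) m ^ 2 * e p ^ m) (-1)

/-- the complex number `p ^ (w / 2)` -/
noncomputable def halfPow (w : ℤ) (p : ℕ) : ℂ := (((p : ℝ) ^ ((w : ℝ) / 2) : ℝ) : ℂ)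

/-- **Polarized constituents.** -/
theorem result (ℓ : ℕ) [Fact ℓ.Prime] {n : ℕ} (hn : 2 ≤ n)
    -- the Satake parameters of the unitary twist of `π`, and its weight
    (S : Set ℕ) (hS : S.Finite) (hℓ : ℓ ∈ S) (α : ℕ → Multiset ℂ) (hα : Cuspidal S n α) (w : ℤ)
    -- the Hecke polynomials have coefficients in the number field `E`
    (E : IntermediateField ℚ ℂ) [FiniteDimensional ℚ E]
    (hE : ∀ p : ℕ, p.Prime → p ∉ S → ∃ H : E[X],
      H.map (algebraMap E ℂ) = ((α p).map fun z => X - C (z * halfPow w p)).prod)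
    -- the representation
    (ι : PadicAlgCl ℓ →+* ℂ) (ρ : Gal(AlgebraicClosure ℚ/ℚ) →* GL (Fin n) (PadicAlgCl ℓ))
    (hρ : Continuous ρ)
    (hatt : ∀ p : ℕ, p.Prime → p ∉ S → AttachedAt ρ ι p ((α p).map fun z => z * halfPow w p)) :
    -- parts which are self-dual up to twists
    (∀ (c : ℕ) (η : Fin c → Gal(AlgebraicClosure ℚ/ℚ) →* (PadicAlgCl ℓ)ˣ), 0 < c →
      (∀ i, Continuous (η i)) → PolarizedParts ρ c η → EssentiallySelfDual S α) ∧
    -- constituents of dimension one and two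
    (∀ (c : ℕ) (V : ℕ → Submodule (PadicAlgCl ℓ) (Fin n → PadicAlgCl ℓ)), V 0 = ⊥ → V c = ⊤ →
      (∀ i ≤ c, Stable ρ (V i)) → (∀ i < c, V i < V (i + 1) ∧
        Module.finrank (PadicAlgCl ℓ) (V (i + 1)) ≤ Module.finrank (PadicAlgCl ℓ) (V i) + 2) →
      EssentiallySelfDual S α) ∧
    -- dimension at most four
    (n ≤ 4 → Irreducible ρ ∨ EssentiallySelfDual S α) := by
  have hart : ∀ e, IsArt S e → IsCharacter S e := by
    rintro e ⟨ε, h1, h2⟩
    exact ⟨ε, h1, fun p hp hpS Q hQ g hg => h2 p hp hpS Q hQ.1 hQ.2 g hg⟩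
  have hsat : Sat S n α := ⟨hα.card, hα.ne_zero, hα.unitary, hα.bound⟩
  have hord : ∀ {f : ℕ → ℕ → ℂ} {r : ℤ}, HasOrder S f r → Ord S f r := by
    rintro f r ⟨h1, c, hc, h2⟩
    exact ord_of_tendsto h1 hc h2
  have hsq : ∀ e, IsArt S e → ∃ r : ℤ, -1 ≤ r ∧ Ord S (fun p m => ps (α p) m ^ 2 * e p ^ m) r := by
    intro e he
    obtain ⟨r, hr, h⟩ := hα.square e (hart e he)
    exact ⟨r, hr, hord h⟩
  have hattach : Att ρ ι S α w :=
    ⟨fun p hp hpS Q hQ hpQ g hg => (hatt p hp hpS).unramified Q ⟨hQ, hpQ⟩ g hg,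
      fun p hp hpS Q hQ hpQ g hg => (hatt p hp hpS).frobenius Q ⟨hQ, hpQ⟩ g hg⟩
  have hpol : ∀ (c : ℕ) (η : Fin c → Gal(AlgebraicClosure ℚ/ℚ) →* (PadicAlgCl ℓ)ˣ), 0 < c →
      Pol ρ c η → EssentiallySelfDual S α := by
    intro c η hc hη
    obtain ⟨e, he, h⟩ := pol_main (by omega) hρ hS hℓ hsat hattach hE (hord hα.rankinSelberg)
      (fun e he => by
        obtain ⟨r, hr, h⟩ := hα.twisted e (hart e he)
        exact ⟨r, hr, hord h⟩) hsq hc hη
    obtain ⟨r, -, h1⟩ := hα.square e (hart e he)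
    have h2 : r = -1 := (hord h1).unique h
    exact ⟨e, hart e he, h2 ▸ h1⟩
  have hchain : ∀ (c : ℕ) (V : ℕ → Submodule (PadicAlgCl ℓ) (Fin n → PadicAlgCl ℓ)), V 0 = ⊥ →
      V c = ⊤ → (∀ i ≤ c, Stable ρ (V i)) → (∀ i < c, V i < V (i + 1) ∧
        Module.finrank (PadicAlgCl ℓ) (V (i + 1)) ≤ Module.finrank (PadicAlgCl ℓ) (V i) + 2) →
      EssentiallySelfDual S α := by
    intro c V h0 hc hst hV
    obtain ⟨η, hη⟩ := chain_pol hρ c V h0 hc (fun i hi g x hx => hst i hi g x hx)
      (fun i hi => (hV i hi).1) (fun i hi => (hV i hi).2)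
    have hc0 : 0 < c := by
      rcases Nat.eq_zero_or_pos c with h | h
      · exfalso
        rw [h, h0] at hc
        have h1 := congrArg (fun W : Submodule (PadicAlgCl ℓ) (Fin n → PadicAlgCl ℓ) =>
          Module.finrank (PadicAlgCl ℓ) W) hc
        have h2 : Module.finrank (PadicAlgCl ℓ)
            (⊥ : Submodule (PadicAlgCl ℓ) (Fin n → PadicAlgCl ℓ)) = 0 := finrank_bot _ _
        have h3 : Module.finrank (PadicAlgCl ℓ)
            (⊤ : Submodule (PadicAlgCl ℓ) (Fin n → PadicAlgCl ℓ)) = n := by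
          rw [finrank_top, Module.finrank_fin_fun]
        have h4 : (0 : ℕ) = n := h2.symm.trans (h1.trans h3)
        omega
      · exact h
    exact hpol c η hc0 hη
  refine ⟨fun c η hc hη1 hη2 => hpol c η hc ⟨hη1, hη2⟩, hchain, fun hn4 => ?_⟩
  by_cases h : ∃ U, Stable ρ U ∧ U ≠ ⊥ ∧ U ≠ ⊤
  · obtain ⟨U, hU, hbot, htop⟩ := h
    refine Or.inr ?_
    have h1 : 0 < Module.finrank (PadicAlgCl ℓ) U := by
      rcases Nat.eq_zero_or_pos (Module.finrank (PadicAlgCl ℓ) U) with h | h
      · exact absurd ((Submodule.finrank_eq_zero (R := PadicAlgCl ℓ)).1 h) hbot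
      · exact h
    have h2 : Module.finrank (PadicAlgCl ℓ) U < n := by
      have h3 := Submodule.finrank_lt htop
      rwa [Module.finrank_fin_fun] at h3
    have h3 : Module.finrank (PadicAlgCl ℓ)
        (⊤ : Submodule (PadicAlgCl ℓ) (Fin n → PadicAlgCl ℓ)) = n := by
      rw [finrank_top, Module.finrank_fin_fun]
    have h0 : Module.finrank (PadicAlgCl ℓ)
        (⊥ : Submodule (PadicAlgCl ℓ) (Fin n → PadicAlgCl ℓ)) = 0 := finrank_bot _ _
    set V : ℕ → Submodule (PadicAlgCl ℓ) (Fin n → PadicAlgCl ℓ) :=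
      fun i => if i = 0 then ⊥ else if i = 1 then U else ⊤ with hV
    have hst : ∀ i ≤ 2, Stable ρ (V i) := by
      intro i hi g x hx
      rcases i with _ | _ | i
      · simp only [hV, if_true, Submodule.mem_bot] at hx ⊢
        rw [hx, mulVec_zero]
      · exact hU g x hx
      · exact Submodule.mem_top
    have hlt : ∀ i < 2, V i < V (i + 1) := by
      intro i hi
      rcases i with _ | _ | i
      · exact bot_lt_iff_ne_bot.2 hbot
      · exact lt_top_iff_ne_top.2 htop
      · omega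
    by_cases hd : Module.finrank (PadicAlgCl ℓ) U ≤ 2 ∧ n ≤ Module.finrank (PadicAlgCl ℓ) U + 2
    · refine hchain 2 V rfl rfl hst fun i hi => ⟨hlt i hi, ?_⟩
      rcases i with _ | _ | i
      · show Module.finrank (PadicAlgCl ℓ) U ≤ Module.finrank (PadicAlgCl ℓ)
          (⊥ : Submodule (PadicAlgCl ℓ) (Fin n → PadicAlgCl ℓ)) + 2
        omega
      · show Module.finrank (PadicAlgCl ℓ)
          (⊤ : Submodule (PadicAlgCl ℓ) (Fin n → PadicAlgCl ℓ)) ≤
            Module.finrank (PadicAlgCl ℓ) U + 2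
        omega
      · omega
    · exfalso
      have hn' : n = 4 := by omega
      have hL : LF S α := by
        refine ⟨hord hα.rankinSelberg, fun e he => hord (hα.standard hn' e (hart e he)), hsq⟩
      have hX : 4 ≤ n → EF S α := fun _ e he => hα.exterior hn' e (hart e he)
      obtain ⟨χ, hχ⟩ := chain_family hρ 2 V (fun i hi g x hx => hst i hi g x hx)
        fun i hi => (hlt i hi).le
      have hcount : 1 ≤ ((Finset.range 2).filter fun i => Module.finrank (PadicAlgCl ℓ) (V (i + 1)) =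
          Module.finrank (PadicAlgCl ℓ) (V i) + 1).card := by
        rw [Nat.one_le_iff_ne_zero, Finset.card_ne_zero]
        by_cases h4 : Module.finrank (PadicAlgCl ℓ) U = 1
        · refine ⟨0, Finset.mem_filter.2 ⟨by simp, ?_⟩⟩
          show Module.finrank (PadicAlgCl ℓ) U = Module.finrank (PadicAlgCl ℓ)
            (⊥ : Submodule (PadicAlgCl ℓ) (Fin n → PadicAlgCl ℓ)) + 1
          omega
        · refine ⟨1, Finset.mem_filter.2 ⟨by simp, ?_⟩⟩
          show Module.finrank (PadicAlgCl ℓ)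
            (⊤ : Submodule (PadicAlgCl ℓ) (Fin n → PadicAlgCl ℓ)) = Module.finrank (PadicAlgCl ℓ) U + 1
          omega
      rcases main hn hρ hS hℓ hsat hattach hE hL hX hcount hχ with h | ⟨h, -, -⟩ <;> omega
  · push Not at h
    refine Or.inl ⟨by omega, fun U hU => ?_⟩
    by_cases hbot : U = ⊥
    · exact Or.inl hbot
    · exact Or.inr (h U hU hbot)

end Pool.Agent.Results.MP_fa5bba_nt.PolarizedConstituents
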